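import Pool.Agent.Lib.MP_743d1e_nt.U.Defs
import Pool.Agent.Lib.MP_743d1e_nt.K2Main

section
/-!
# K2U: uniform version of the K2 side
-/
set_option autoImplicit false

namespace MP743d1e.U.K2UM

open scoped BigOperators
open MP743d1e.K2Main

/-- a radius such that all the circles avoid the algebraic numbers -/
theorem radius {u v : ℝ} (huv : u < v) :
    ∃ R : ℝ, u < R ∧ R < v ∧ ∀ (c : ℤ) (θ : ℝ), Transcendental ℚ (circ c R θ) := by
  have hc : {x : ℝ | IsAlgebraic ℚ x}.Countable := Algebraic.countable ℚ ℝ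
  obtain ⟨ρ, h1, h2⟩ := (hc.dense_compl ℝ).exists_between huv
  refine ⟨ρ, h2.1, h2.2, fun c θ h => h1 ?_⟩
  have h3 : IsAlgebraic ℚ (circ c ρ θ - (c : ℂ)) := h.sub (isAlgebraic_intCast c)
  have h4 : IsAlgebraic ℚ ((starRingEnd ℂ) (circ c ρ θ - (c : ℂ))) :=
    h3.algHom ((Complex.conjAe.toAlgHom).restrictScalars ℚ)
  have h5 := h3.mul h4
  have h6 : (circ c ρ θ - (c : ℂ)) * (starRingEnd ℂ) (circ c ρ θ - (c : ℂ)) = ((ρ : ℝ) : ℂ) ^ 2 := by
    have : circ c ρ θ - (c : ℂ) = (ρ : ℂ) * Complex.exp (θ * Complex.I) := by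
      simp [circ]
    rw [this, map_mul, Complex.conj_ofReal, ← Complex.exp_conj, map_mul, Complex.conj_I,
      Complex.conj_ofReal]
    have : Complex.exp (θ * Complex.I) * Complex.exp (θ * -Complex.I) = 1 := by
      rw [← Complex.exp_add]
      simp
    linear_combination (ρ : ℂ) ^ 2 * this
  rw [h6] at h5
  have h7 : IsAlgebraic ℚ ((ρ : ℝ) : ℂ) := h5.of_pow (by norm_num)
  have h8 : IsAlgebraic ℚ (algebraMap ℝ ℂ ρ) := h7
  exact (isAlgebraic_algebraMap_iff (algebraMap ℝ ℂ).injective).1 h8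

/-- points of a circle whose centre is far away or equal to `s` -/
theorem circ_lo {c s : ℤ} {R t : ℝ} (h0 : 0 < R) (ht : 4 * R ≤ t)
    (h : s ≠ c → t ≤ |(c : ℝ) - s|) (θ : ℝ) : R ≤ ‖circ c R θ - (s : ℂ)‖ := by
  by_cases hs : s = c
  · subst hs
    have : circ s R θ - (s : ℂ) = (R : ℂ) * Complex.exp (θ * Complex.I) := by simp [circ]
    rw [this, Circ.norm_exp_mul θ h0.le]
  · have h2 := h hs
    have h3 : circ c R θ - (s : ℂ) = ((c - s : ℤ) : ℂ) + (R : ℂ) * Complex.exp (θ * Complex.I) := by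
      simp only [circ]; push_cast; ring
    rw [h3]
    have h4 := norm_sub_le_norm_add ((c - s : ℤ) : ℂ) ((R : ℂ) * Complex.exp (θ * Complex.I))
    have h5 : ‖((c - s : ℤ) : ℂ)‖ = |(c : ℝ) - s| := by
      rw [Complex.norm_intCast]; push_cast; rfl
    rw [Circ.norm_exp_mul θ h0.le, h5] at h4
    linarith

theorem circ_hi {c s : ℤ} {R : ℝ} (h0 : 0 < R) (θ : ℝ) :
    ‖circ c R θ - (s : ℂ)‖ ≤ |(c : ℝ)| + |(s : ℝ)| + R := by
  have h3 : circ c R θ - (s : ℂ) = ((c - s : ℤ) : ℂ) + (R : ℂ) * Complex.exp (θ * Complex.I) := by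
    simp only [circ]; push_cast; ring
  rw [h3]
  have h4 := norm_add_le ((c - s : ℤ) : ℂ) ((R : ℂ) * Complex.exp (θ * Complex.I))
  have h6 : ‖((c - s : ℤ) : ℂ)‖ = |(c : ℝ) - s| := by
    rw [Complex.norm_intCast]; push_cast; rfl
  rw [Circ.norm_exp_mul θ h0.le, h6] at h4
  have h5 := abs_sub (c : ℝ) (s : ℝ)
  linarith

variable {D : Arr} {H δ P : ℝ}

theorem r_le (hS : Sep D H δ) (j l : Fin D.n) (h : D.p j ≠ D.p l) : |(D.r j l : ℝ)| ≤ 2 * H := by
  have h1 := D.cross j l h
  have h2 : ((D.p j : ℝ) - D.p l) * D.r j l = D.q l - D.q j := by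
    have : (D.p j - D.p l) * D.r j l = D.q l - D.q j := by linear_combination h1
    exact_mod_cast this
  have h3 : (1 : ℝ) ≤ |(D.p j : ℝ) - D.p l| := by
    have : (1 : ℤ) ≤ |D.p j - D.p l| := Int.one_le_abs (sub_ne_zero.2 h)
    exact_mod_cast this
  have h4 : |(D.p j : ℝ) - D.p l| * |(D.r j l : ℝ)| ≤ 2 * H := by
    rw [← abs_mul, h2]
    have h5 := abs_sub (D.q l : ℝ) (D.q j)
    have := hS.q_le l
    have := hS.q_le j
    linarith
  have h5 : |(D.r j l : ℝ)| ≤ |(D.p j : ℝ) - D.p l| * |(D.r j l : ℝ)| :=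
    le_mul_of_one_le_left (abs_nonneg _) h3
  linarith

theorem ctr_le (hS : Sep D H δ) (k : Idx D) : |(ctr D k : ℝ)| ≤ 2 * H := by
  rcases k with ⟨⟨i, j⟩, hi, hj⟩ | ⟨⟨j, l⟩, hjl, hp⟩
  · have h1 := hS.a_le i
    have h2 := abs_nonneg (D.a i : ℝ)
    show |(D.a i : ℝ)| ≤ 2 * H
    linarith
  · exact r_le hS j l hp

theorem ctr_a (hS : Sep D H δ) (k : Idx D) (i : Fin D.m) (h : D.a i ≠ ctr D k) :
    δ * H ≤ |(ctr D k : ℝ) - D.a i| := by
  rcases k with ⟨⟨i', j⟩, hi, hj⟩ | ⟨⟨j, l⟩, hjl, hp⟩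
  · have h1 : D.a i ≠ D.a i' := h
    show δ * H ≤ |(D.a i' : ℝ) - D.a i|
    exact hS.aa i' i (fun h2 => h1 (by rw [h2]))
  · exact hS.ra j l i hp

theorem ctr_r (hS : Sep D H δ) (k : Idx D) (j l : Fin D.n) (hjl : D.p j ≠ D.p l)
    (h : D.r j l ≠ ctr D k) : δ * H ≤ |(ctr D k : ℝ) - D.r j l| := by
  rcases k with ⟨⟨i', j'⟩, hi, hj⟩ | ⟨⟨j', l'⟩, hjl', hp⟩
  · have h1 := hS.ra j l i' hjl
    rw [abs_sub_comm]
    exact h1
  · exact hS.rr j' l' j l hp hjl (fun h2 => h h2.symm)

theorem ctr_ctr (hS : Sep D H δ) (i k : Idx D) (h : ctr D i ≠ ctr D k) :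
    δ * H ≤ |(ctr D k : ℝ) - ctr D i| := by
  rcases i with ⟨⟨i', j'⟩, hi, hj⟩ | ⟨⟨j', l'⟩, hjl', hp⟩
  · exact ctr_a hS k i' h
  · exact ctr_r hS k j' l' hp h

/-- the constant -/
noncomputable def MM (P δ : ℝ) : ℝ := 2 * (1 + P) * (32 / δ + 1)

theorem gc (hS : Sep D H δ) (hH : 0 < H) (hδ : 0 < δ) (hP0 : 0 ≤ P)
    (hP : ∀ j, |(D.p j : ℝ)| ≤ P) {R : ℝ} (h1 : δ * H / 8 < R) (h2 : R < δ * H / 4) (k : Idx D) :
    GC D (l1 D k) (ctr D k) R (MM P δ) := by
  have hR : 0 < R := lt_trans (by positivity) h1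
  have hHR : H ≤ 8 / δ * R := by
    rw [div_mul_eq_mul_div, le_div_iff₀ hδ]
    linarith
  have h4R : 4 * R ≤ δ * H := by linarith
  have hMM : 2 * (32 / δ + 1) ≤ MM P δ := by
    unfold MM
    have h3 : 0 < 32 / δ + 1 := by positivity
    nlinarith [mul_nonneg hP0 h3.le]
  have hMP : 2 * P * (32 / δ + 1) ≤ MM P δ := by
    unfold MM
    have h3 : 0 < 32 / δ + 1 := by positivity
    nlinarith
  have h8 : 8 / δ = (32 / δ) / 4 := by ring
  have hx : 0 < 32 / δ := by positivity
  refine ⟨hR, ?_, ?_, ?_, ?_, ?_, ?_⟩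
  · linarith
  · intro i θ
    exact circ_lo hR h4R (fun h => ctr_a hS k i h) θ
  · intro i θ
    refine (circ_hi hR θ).trans ?_
    have h3 := ctr_le hS k
    have h4 := hS.a_le i
    have h5 : 3 * H + R ≤ 2 * (32 / δ + 1) * R := by
      rw [h8] at hHR
      nlinarith [mul_pos hx hR]
    have h6 : 2 * (32 / δ + 1) * R ≤ MM P δ * R := by gcongr
    linarith
  · intro l hl θ
    by_cases hp : D.p (l1 D k) = D.p l
    · have h3 : D.b (l1 D k) (circ (ctr D k) R θ) - D.b l (circ (ctr D k) R θ) =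
          ((D.q (l1 D k) - D.q l : ℤ) : ℂ) := by
        simp only [Arr.b, hp]; push_cast; ring
      rw [h3, Complex.norm_intCast]
      push_cast
      have h4 := hS.qq (l1 D k) l (Ne.symm hl) hp
      linarith
    · have h3 : D.b (l1 D k) (circ (ctr D k) R θ) - D.b l (circ (ctr D k) R θ) =
          ((D.p (l1 D k) - D.p l : ℤ) : ℂ) *
            (circ (ctr D k) R θ - (D.r (l1 D k) l : ℂ)) := by
        have h4 := D.cross (l1 D k) l hp
        have h5 : ((D.p (l1 D k) : ℤ) : ℂ) * (D.r (l1 D k) l : ℂ) + (D.q (l1 D k) : ℂ) =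
            (D.p l : ℂ) * (D.r (l1 D k) l : ℂ) + (D.q l : ℂ) := by exact_mod_cast h4
        simp only [Arr.b]; push_cast
        linear_combination h5
      rw [h3, norm_mul]
      have h6 := Circ.norm_int_ge_one (z := D.p (l1 D k) - D.p l) (by omega)
      have h7 := circ_lo hR h4R (fun h => ctr_r hS k (l1 D k) l hp h) θ
      nlinarith [norm_nonneg (circ (ctr D k) R θ - (D.r (l1 D k) l : ℂ))]
  · intro l hl θ
    by_cases hp : D.p (l1 D k) = D.p l
    · have h3 : D.b (l1 D k) (circ (ctr D k) R θ) - D.b l (circ (ctr D k) R θ) =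
          ((D.q (l1 D k) - D.q l : ℤ) : ℂ) := by
        simp only [Arr.b, hp]; push_cast; ring
      rw [h3, Complex.norm_intCast]
      push_cast
      have h4 := abs_sub (D.q (l1 D k) : ℝ) (D.q l)
      have h5 := hS.q_le (l1 D k)
      have h6 := hS.q_le l
      have h7 : 2 * H ≤ 2 * (32 / δ + 1) * R := by
        rw [h8] at hHR
        nlinarith [mul_pos hx hR]
      have h9 : 2 * (32 / δ + 1) * R ≤ MM P δ * R := by gcongr
      linarith
    · have h3 : D.b (l1 D k) (circ (ctr D k) R θ) - D.b l (circ (ctr D k) R θ) =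
          ((D.p (l1 D k) - D.p l : ℤ) : ℂ) *
            (circ (ctr D k) R θ - (D.r (l1 D k) l : ℂ)) := by
        have h4 := D.cross (l1 D k) l hp
        have h5 : ((D.p (l1 D k) : ℤ) : ℂ) * (D.r (l1 D k) l : ℂ) + (D.q (l1 D k) : ℂ) =
            (D.p l : ℂ) * (D.r (l1 D k) l : ℂ) + (D.q l : ℂ) := by exact_mod_cast h4
        simp only [Arr.b]; push_cast
        linear_combination h5
      rw [h3, norm_mul, Complex.norm_intCast]
      push_cast
      have h4 := abs_sub (D.p (l1 D k) : ℝ) (D.p l)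
      have h5 := hP (l1 D k)
      have h6 := hP l
      have h7 := circ_hi hR θ (c := ctr D k) (s := D.r (l1 D k) l)
      have h9 := ctr_le hS k
      have h10 := r_le hS (l1 D k) l hp
      have h11 : ‖circ (ctr D k) R θ - (D.r (l1 D k) l : ℂ)‖ ≤ (32 / δ + 1) * R := by
        rw [h8] at hHR
        nlinarith
      calc |(D.p (l1 D k) : ℝ) - D.p l| * ‖circ (ctr D k) R θ - (D.r (l1 D k) l : ℂ)‖
          ≤ (2 * P) * ((32 / δ + 1) * R) := by
            apply mul_le_mul (by linarith) h11 (norm_nonneg _) (by positivity)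
        _ = 2 * P * (32 / δ + 1) * R := by ring
        _ ≤ MM P δ * R := by gcongr
  · intro l
    rw [Complex.norm_intCast]
    have h3 := hP l
    have h4 : P ≤ 2 * P * (32 / δ + 1) := by
      have : 0 ≤ P * (32 / δ) := by positivity
      nlinarith
    linarith

theorem ctr_hi (hS : Sep D H δ) (hδ : 0 < δ) (hP0 : 0 ≤ P) {R : ℝ}
    (h1 : δ * H / 8 < R) (hR : 0 < R) (i k : Idx D) (θ : ℝ) :
    ‖circ (ctr D k) R θ - (ctr D i : ℂ)‖ ≤ MM P δ * R := by
  have hHR : H ≤ 8 / δ * R := by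
    rw [div_mul_eq_mul_div, le_div_iff₀ hδ]
    linarith
  have hMM : 2 * (32 / δ + 1) ≤ MM P δ := by
    unfold MM
    have h3 : 0 < 32 / δ + 1 := by positivity
    nlinarith [mul_nonneg hP0 h3.le]
  have h8 : 8 / δ = (32 / δ) / 4 := by ring
  have hx : 0 < 32 / δ := by positivity
  refine (circ_hi hR θ).trans ?_
  have h3 := ctr_le hS k
  have h4 := ctr_le hS i
  have h5 : 4 * H + R ≤ 2 * (32 / δ + 1) * R := by
    rw [h8] at hHR
    nlinarith [mul_pos hx hR]
  have h6 : 2 * (32 / δ + 1) * R ≤ MM P δ * R := by gcongr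
  linarith

end MP743d1e.U.K2UM

namespace MP743d1e.U

open MP743d1e.K2Main K2UM

/-- The K2 side of the project, with explicit symbols, uniformly in the arrangement. -/
theorem k2u (hS : SpecStein) (hI : SpecInteg) (hE : SpecEmb) (hSh : SpecSHU) (hA : SpecASU)
    (m n : ℕ) (P δ : ℝ) (hδ : 0 < δ) (hP0 : 0 ≤ P) : ∃ C L : ℝ, 0 < L ∧
    ∀ D : Arr, D.m = m → D.n = n → (∀ j, |(D.p j : ℝ)| ≤ P) → ∀ H : ℝ, 0 < H → Sep D H δ →
    ∀ lam : ℤ, L ≤ |(lam : ℝ)| * H ^ (m + n) →
    ∀ (K : Type) [Field K] [Algebra ℚ K] (x y : K) (hc : IsCurve ℚ K D lam x y),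
      ∃ (e : Fin D.g ≃ Idx D) (γ : Fin D.g → Loop K) (ρ : Fin D.g → (K2 K →+ ℝ)),
        (∀ i, ∀ v : DVal K, tame v (sym (uu hc (e i)) (ww hc (e i))) = 0) ∧
        (∀ k, ∀ f h : Kˣ, ρ k (sym f h) =
          regInt (fun θ => (γ k).ev θ (f : K)) (fun θ => (γ k).ev θ (h : K))) ∧
        (∀ i k, |ρ k (sym (uu hc (e i)) (ww hc (e i))) -
          (if i = k then 2 * Real.pi * Real.log (|(lam : ℝ)| * H ^ (m + n)) else 0)| ≤ C) ∧
        (Matrix.of fun i k => ρ k (sym (uu hc (e i)) (ww hc (e i)))).det ≠ 0 := by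
  -- constants
  obtain ⟨C1, L1, hL1, hC1, hY⟩ := hSh m n (MM P δ)
  obtain ⟨C2, L2, hL2, hM⟩ := hA m n (MM P δ) C1 hC1
  set E : ℝ := 2 * Real.pi * ((m + n : ℕ) * (|Real.log (δ / 8)| + |Real.log (δ / 4)|)) with hEdef
  have hE0 : 0 ≤ E := by positivity
  set G : ℝ := ((m * n + n * n : ℕ) : ℝ) with hG
  set C : ℝ := |C2| + E with hCdef
  have hC0 : 0 ≤ C := by positivity
  set L0 : ℝ := L1 + L2 + 1 + Real.exp (G * C + C) with hL0
  have hL0pos : 0 < L0 := by positivity
  refine ⟨C, L0 / (δ / 8) ^ (m + n) + Real.exp (G * C + 1), by positivity, ?_⟩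
  rintro D rfl rfl hP H hH hSep lam hlam K _ _ x y hc
  -- the radius
  obtain ⟨r, hr0, hr1, hr⟩ := radius (show δ * H / 8 < δ * H / 4 by
    have : 0 < δ * H := by positivity
    linarith)
  have hrpos : 0 < r := lt_trans (by positivity) hr0
  have hlamne : 0 < |(lam : ℝ)| := by
    rw [abs_pos]
    exact_mod_cast lam_ne hc
  have hLam : L0 ≤ lamR D lam r := by
    have h1 : L0 / (δ / 8) ^ (D.m + D.n) ≤ |(lam : ℝ)| * H ^ (D.m + D.n) := by
      have := Real.exp_pos (G * C + 1)
      linarith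
    rw [div_le_iff₀ (by positivity)] at h1
    refine h1.trans ?_
    unfold lamR
    rw [mul_assoc, ← mul_pow]
    have h2 : H * (δ / 8) ≤ r := by linarith
    gcongr
  have hgc := fun k : Idx D => gc hSep hH hδ hP0 hP hr0 hr1 k
  choose Y hYs using fun k : Idx D => hY D rfl rfl (l1 D k) (ctr D k) r (hgc k) lam (by
    have := Real.exp_pos (G * C + C)
    linarith)
  choose γ hγ using fun k : Idx D => hE K D lam x y hc (circ (ctr D k) r) (Y k)
    (smooth_circ _ _) (hYs k).smooth (periodic_circ _ _) (hYs k).periodic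
    (fun θ => hr _ θ) (hYs k).eqn
  choose ρ hρ using fun k : Idx D => hS K (γ k)
  let e : Fin D.g ≃ Idx D := (Fintype.equivFinOfCardEq (card_idx D)).symm
  -- comparison of the two logarithms
  have hlog : |Real.log (lamR D lam r) - Real.log (|(lam : ℝ)| * H ^ (D.m + D.n))| ≤
      (D.m + D.n : ℕ) * (|Real.log (δ / 8)| + |Real.log (δ / 4)|) := by
    unfold lamR
    rw [Real.log_mul hlamne.ne' (by positivity), Real.log_mul hlamne.ne' (by positivity),
      Real.log_pow, Real.log_pow]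
    have h1 : Real.log r = Real.log H + Real.log (r / H) := by
      rw [Real.log_div hrpos.ne' hH.ne']; ring
    have h2 : Real.log |(lam : ℝ)| + ((D.m + D.n : ℕ) : ℝ) * Real.log r -
        (Real.log |(lam : ℝ)| + ((D.m + D.n : ℕ) : ℝ) * Real.log H) =
        ((D.m + D.n : ℕ) : ℝ) * Real.log (r / H) := by
      rw [h1]; ring
    rw [h2, abs_mul, Nat.abs_cast]
    apply mul_le_mul_of_nonneg_left _ (Nat.cast_nonneg _)
    apply Asym.abs_log_le (by positivity)
    · rw [le_div_iff₀ hH]; linarith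
    · rw [div_le_iff₀ hH]; linarith
  have key : ∀ i k : Idx D, |ρ k (sym (uu hc i) (ww hc i)) -
      (if i = k then 2 * Real.pi * Real.log (|(lam : ℝ)| * H ^ (D.m + D.n)) else 0)| ≤ C := by
    intro i k
    rw [hρ k]
    have h1 := hM D rfl rfl (l1 D k) (ctr D k) r (hgc k) (ctr D i) (i0 D) (l1 D i) (l2 D i)
      (fun θ => ⟨circ_lo hrpos (by linarith) (fun h => ctr_ctr hSep i k h) θ,
        ctr_hi hSep hδ hP0 hr0 hrpos i k θ⟩) lam (by
          have := Real.exp_pos (G * C + C)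
          linarith) (Y k) (hYs k)
    have e1 : (fun θ => (γ k).ev θ (uu hc i : K)) =
        fun θ => (circ (ctr D k) r θ - (ctr D i : ℂ)) / (circ (ctr D k) r θ - (D.a (i0 D) : ℂ)) := by
      funext θ
      show (γ k).ev θ ((x - (ctr D i : K)) / (x - (D.a (i0 D) : K))) = _
      rw [map_div₀, map_sub, map_sub, map_intCast, map_intCast, (hγ k θ).1]
    have e2 : (fun θ => (γ k).ev θ (ww hc i : K)) =
        fun θ => (Y k θ - D.b (l1 D i) (circ (ctr D k) r θ)) /
          (Y k θ - D.b (l2 D i) (circ (ctr D k) r θ)) := by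
      funext θ
      show (γ k).ev θ ((y - D.b (l1 D i) x) / (y - D.b (l2 D i) x)) = _
      rw [map_div₀, map_sub, map_sub, map_b, map_b, (hγ k θ).1, (hγ k θ).2]
    rw [e1, e2]
    have e3 := leading D i k
    rw [mul_assoc, e3] at h1
    have e4 : 2 * Real.pi * Real.log (lamR D lam r) * (if i = k then (1 : ℝ) else 0) =
        if i = k then 2 * Real.pi * Real.log (lamR D lam r) else 0 := by
      split_ifs <;> simp
    rw [e4] at h1
    have h2 : |(if i = k then 2 * Real.pi * Real.log (lamR D lam r) else 0) -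
        (if i = k then 2 * Real.pi * Real.log (|(lam : ℝ)| * H ^ (D.m + D.n)) else 0)| ≤ E := by
      split_ifs
      · rw [← mul_sub, abs_mul, abs_of_pos (by positivity), hEdef]
        gcongr
      · rw [sub_zero, abs_zero]
        exact hE0
    have h3 := abs_sub_le (regInt (fun θ => (circ (ctr D k) r θ - (ctr D i : ℂ)) /
        (circ (ctr D k) r θ - (D.a (i0 D) : ℂ)))
      (fun θ => (Y k θ - D.b (l1 D i) (circ (ctr D k) r θ)) /
          (Y k θ - D.b (l2 D i) (circ (ctr D k) r θ))))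
      (if i = k then 2 * Real.pi * Real.log (lamR D lam r) else 0)
      (if i = k then 2 * Real.pi * Real.log (|(lam : ℝ)| * H ^ (D.m + D.n)) else 0)
    have h4 := le_abs_self C2
    linarith
  have hg : (D.g : ℝ) ≤ G := by
    have h1 : D.g ≤ D.m * D.n + D.n * D.n := by
      unfold Arr.g Arr.crossings
      apply Nat.add_le_add
      · exact Nat.mul_le_mul (Nat.sub_le _ _) (Nat.sub_le _ _)
      · refine (Finset.card_filter_le _ _).trans ?_
        rw [Finset.card_univ, Fintype.card_prod, Fintype.card_fin]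
    rw [hG]
    exact_mod_cast h1
  refine ⟨e, fun k => γ (e k), fun k => ρ (e k), ?_, ?_, ?_, ?_⟩
  · intro i v
    exact tame_zero hI hc (e i) v
  · intro k f h
    exact hρ (e k) f h
  · intro i k
    have := key (e i) (e k)
    simp only [e.injective.eq_iff] at this
    exact this
  · apply det_ne (C := C) (τ := 2 * Real.pi * Real.log (|(lam : ℝ)| * H ^ (D.m + D.n)))
    · have h1 : G * C + 1 ≤ Real.log (|(lam : ℝ)| * H ^ (D.m + D.n)) := by
        rw [← Real.log_exp (G * C + 1)]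
        apply Real.log_le_log (Real.exp_pos _)
        have : 0 ≤ L0 / (δ / 8) ^ (D.m + D.n) := by positivity
        linarith
      have h0 : 0 ≤ G * C := mul_nonneg (by rw [hG]; positivity) hC0
      have h2 : (1 : ℝ) ≤ 2 * Real.pi := by
        have := Real.pi_gt_three; linarith
      have h3 : (D.g : ℝ) * C ≤ G * C := by gcongr
      nlinarith
    · intro i k
      have := key (e i) (e k)
      simp only [e.injective.eq_iff] at this
      simpa using this

end MP743d1e.U
end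

section
/-!
# ASU: uniform asymptotics of the regulator integrals
-/
set_option autoImplicit false

namespace MP743d1e.U.ASUM

open scoped BigOperators
open MP743d1e.Circ MP743d1e.Asym

/-- the constant for the lines other than the `j`-th one -/
noncomputable def k1 (M : ℝ) : ℝ := 1 + 4 * M + Real.log 2 + Real.log (M + 1)

/-- the constant for all lines -/
noncomputable def k2 (m n : ℕ) (M : ℝ) : ℝ := m * (1 + Real.log M) + n * k1 M + k1 M

theorem k1_nonneg {M : ℝ} (hM : 1 ≤ M) : 0 ≤ k1 M := by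
  unfold k1
  have h1 := Real.log_nonneg (show (1 : ℝ) ≤ 2 by norm_num)
  have h2 := Real.log_nonneg (show (1 : ℝ) ≤ M + 1 by linarith)
  linarith

variable {D : Arr} {j : Fin D.n} {c : ℤ} {R M : ℝ}

/-- a circle avoiding the disc of radius `R` around the integer `s` -/
theorem far_of_le (h0 : 0 < R) {s : ℤ} (h : ∀ θ, R ≤ ‖circ c R θ - (s : ℂ)‖) :
    s = c ∨ 2 * R ≤ |(c : ℝ) - s| := by
  by_cases hs : s = c
  · exact Or.inl hs
  right
  have h1 := h 0
  have h2 := h Real.pi
  have e1 : circ c R 0 - (s : ℂ) = (((c : ℝ) - s + R : ℝ) : ℂ) := by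
    simp only [circ]; push_cast; simp; ring
  have e2 : circ c R Real.pi - (s : ℂ) = (((c : ℝ) - s - R : ℝ) : ℂ) := by
    simp only [circ]; push_cast; rw [Complex.exp_pi_mul_I]; ring
  rw [e1, Complex.norm_real, Real.norm_eq_abs] at h1
  rw [e2, Complex.norm_real, Real.norm_eq_abs] at h2
  rcases lt_or_gt_of_ne hs with hlt | hgt
  · have h3 : (s : ℝ) < c := by exact_mod_cast hlt
    rw [abs_of_pos (by linarith)]
    rcases le_abs.1 h2 with h4 | h4 <;> linarith
  · have h3 : (c : ℝ) < s := by exact_mod_cast hgt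
    rw [abs_of_neg (by linarith)]
    rcases le_abs.1 h1 with h4 | h4 <;> linarith

/-- the logarithm of a normalised quantity -/
theorem log_norm_bound (h0 : 0 < R) (hM : 1 ≤ M) {z : ℂ} (h1 : R ≤ ‖z‖) (h2 : ‖z‖ ≤ M * R) :
    |Real.log ‖z‖ - Real.log R| ≤ Real.log M := by
  have hz : 0 < ‖z‖ := lt_of_lt_of_le h0 h1
  have h3 := Real.log_le_log h0 h1
  have h4 := Real.log_le_log hz h2
  rw [Real.log_mul (by positivity) h0.ne'] at h4
  rw [abs_of_nonneg (by linarith)]
  linarith

/-- the bounds for a line different from the `j`-th one -/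
theorem bounds_ne (hG : GC D j c R M) {C : ℝ} (hC : 0 < C) {lam : ℤ}
    (hlam : 2 * C ≤ lamR D lam R) {Y : ℝ → ℂ} (hY : ShU D lam j c R C Y) (l : Fin D.n)
    (hl : l ≠ j) (θ : ℝ) : Y θ - D.b l (circ c R θ) ≠ 0 ∧
        ‖logDeriv (fun t => Y t - D.b l (circ c R t)) θ‖ ≤ k1 M ∧
        |Real.log ‖Y θ - D.b l (circ c R θ)‖ - Real.log R| ≤ k1 M := by
  have h0 := hG.pos
  have hM := hG.one
  have hpos : 0 < lamR D lam R := by linarith
  have hlog2 := Real.log_nonneg (show (1 : ℝ) ≤ 2 by norm_num)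
  have hlogM := Real.log_nonneg (show (1 : ℝ) ≤ M + 1 by linarith)
  have hC1 : C * R / lamR D lam R ≤ R / 2 := by
    rw [div_le_iff₀ hpos]
    nlinarith
  have hn := (hY.near θ).trans hC1
  have hn' := (hY.near' θ).trans hC1
  have hlow := hG.blo l hl θ
  have hup := hG.bhi l hl θ
  have hsplit : Y θ - D.b l (circ c R θ) =
      (Y θ - D.b j (circ c R θ)) + (D.b j (circ c R θ) - D.b l (circ c R θ)) := by ring
  have hZlow : R / 2 ≤ ‖Y θ - D.b l (circ c R θ)‖ := by
    rw [hsplit]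
    have := norm_sub_le_norm_add (D.b j (circ c R θ) - D.b l (circ c R θ))
      (Y θ - D.b j (circ c R θ))
    rw [add_comm] at this
    linarith
  have hZup : ‖Y θ - D.b l (circ c R θ)‖ ≤ (M + 1) * R := by
    rw [hsplit]
    refine (norm_add_le _ _).trans ?_
    linarith
  have hZpos : 0 < ‖Y θ - D.b l (circ c R θ)‖ := by linarith
  refine ⟨norm_pos_iff.1 hZpos, ?_, ?_⟩
  · have hYd : DifferentiableAt ℝ Y θ := (hY.smooth.differentiable (by norm_num)) θ
    have hYd' := hYd.hasDerivAt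
    have e1 : deriv (fun t => Y t - D.b j (circ c R t)) θ =
        deriv Y θ - (D.p j : ℂ) * (Complex.I * (circ c R θ - (c : ℂ))) :=
      (hYd'.sub (hasDerivAt_b D c R θ j)).deriv
    have e2 : deriv (fun t => Y t - D.b l (circ c R t)) θ =
        deriv Y θ - (D.p l : ℂ) * (Complex.I * (circ c R θ - (c : ℂ))) :=
      (hYd'.sub (hasDerivAt_b D c R θ l)).deriv
    have e3 : deriv (fun t => Y t - D.b l (circ c R t)) θ =
        deriv (fun t => Y t - D.b j (circ c R t)) θ +
        ((D.p j : ℂ) * (Complex.I * (circ c R θ - (c : ℂ))) -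
        (D.p l : ℂ) * (Complex.I * (circ c R θ - (c : ℂ)))) := by
      rw [e1, e2]; ring
    rw [logDeriv_apply, norm_div]
    have h6 : ‖deriv (fun t => Y t - D.b l (circ c R t)) θ‖ ≤ R / 2 + 2 * M * R := by
      rw [e3]
      refine (norm_add_le _ _).trans ?_
      have h7 := norm_sub_le ((D.p j : ℂ) * (Complex.I * (circ c R θ - (c : ℂ))))
        ((D.p l : ℂ) * (Complex.I * (circ c R θ - (c : ℂ))))
      rw [norm_mul, norm_mul (D.p l : ℂ), norm_deriv_circ h0] at h7
      have h8 : ‖(D.p j : ℂ)‖ * R ≤ M * R := by have := hG.p_le j; gcongr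
      have h9 : ‖(D.p l : ℂ)‖ * R ≤ M * R := by have := hG.p_le l; gcongr
      linarith
    have h7 : ‖deriv (fun t => Y t - D.b l (circ c R t)) θ‖ /
        ‖Y θ - D.b l (circ c R θ)‖ ≤ (R / 2 + 2 * M * R) / (R / 2) := by gcongr
    have h8 : (R / 2 + 2 * M * R) / (R / 2) = 1 + 4 * M := by field_simp; ring
    rw [h8] at h7
    unfold k1
    linarith
  · have h3 := Real.log_le_log (by positivity) hZlow
    have h4 := Real.log_le_log hZpos hZup
    rw [Real.log_div h0.ne' (by norm_num)] at h3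
    rw [Real.log_mul (by positivity) h0.ne'] at h4
    unfold k1
    rw [abs_le]
    constructor <;> linarith

theorem hXne (hG : GC D j c R M) (t : ℝ) (i : Fin D.m) : circ c R t - (D.a i : ℂ) ≠ 0 := by
  rw [← norm_pos_iff]
  exact lt_of_lt_of_le hG.pos (hG.alo i t)

/-- the bounds for the `j`-th line -/
theorem bounds_eq (hG : GC D j c R M) {C : ℝ} (hC : 0 < C) {lam : ℤ}
    (hlam : 2 * C ≤ lamR D lam R) {Y : ℝ → ℂ} (hY : ShU D lam j c R C Y) (θ : ℝ) :
    Y θ - D.b j (circ c R θ) ≠ 0 ∧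
        ‖logDeriv (fun t => Y t - D.b j (circ c R t)) θ‖ ≤ k2 D.m D.n M ∧
        |Real.log ‖Y θ - D.b j (circ c R θ)‖ - Real.log R + Real.log (lamR D lam R)| ≤
          k2 D.m D.n M := by
  have h0 := hG.pos
  have hM := hG.one
  have hk1 := k1_nonneg hM
  have hlogM := Real.log_nonneg hM
  have hpos : 0 < lamR D lam R := by linarith
  have hlamR : |(lam : ℝ)| ≠ 0 := by
    intro h
    unfold lamR at hpos
    rw [h, zero_mul] at hpos
    exact lt_irrefl _ hpos
  have hlam0 : (lam : ℂ) ≠ 0 := by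
    intro h
    have : (lam : ℝ) = 0 := by exact_mod_cast h
    exact hlamR (by rw [this, abs_zero])
  have hall : ∀ t l, Y t - D.b l (circ c R t) ≠ 0 := by
    intro t l
    have h2 := hY.eqn t
    have h3 : ∏ l, (Y t - D.b l (circ c R t)) ≠ 0 := by
      intro h; rw [h, mul_zero] at h2; exact zero_ne_one h2
    exact (Finset.prod_ne_zero_iff.1 h3) l (Finset.mem_univ l)
  have hcard : ((Finset.univ.erase j).card : ℝ) ≤ D.n := by
    have h7 := Finset.card_le_univ (Finset.univ.erase j)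
    rw [Fintype.card_fin] at h7
    exact_mod_cast h7
  have hsumk : ∑ l ∈ Finset.univ.erase j, k1 M ≤ D.n * k1 M := by
    rw [Finset.sum_const, nsmul_eq_mul]
    gcongr
  refine ⟨hall θ j, ?_, ?_⟩
  · -- logarithmic derivative
    have hdX : ∀ i : Fin D.m, DifferentiableAt ℝ (fun t => circ c R t - (D.a i : ℂ)) θ :=
      fun i => ((hasDerivAt_circ c R θ).differentiableAt).sub_const _
    have hdZ : ∀ l, DifferentiableAt ℝ (fun t => Y t - D.b l (circ c R t)) θ := fun l =>
      ((hY.smooth.differentiable (by norm_num)) θ).sub (hasDerivAt_b D c R θ l).differentiableAt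
    have h2 : logDeriv (fun t => ((lam : ℂ) * (∏ i, (circ c R t - (D.a i : ℂ)))) *
        (∏ l, (Y t - D.b l (circ c R t)))) θ = 0 := by
      have : (fun t => ((lam : ℂ) * (∏ i, (circ c R t - (D.a i : ℂ)))) *
        (∏ l, (Y t - D.b l (circ c R t)))) = fun _ => (1 : ℂ) := by
        funext t
        exact hY.eqn t
      rw [this, logDeriv_const]
      rfl
    have hprodX : DifferentiableAt ℝ (fun t => ∏ i, (circ c R t - (D.a i : ℂ))) θ :=
      DifferentiableAt.fun_finsetProd (fun i _ => hdX i)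
    have hprodZ : DifferentiableAt ℝ (fun t => ∏ l, (Y t - D.b l (circ c R t))) θ :=
      DifferentiableAt.fun_finsetProd (fun l _ => hdZ l)
    rw [logDeriv_mul (f := fun t => (lam : ℂ) * (∏ i, (circ c R t - (D.a i : ℂ))))
        (g := fun t => ∏ l, (Y t - D.b l (circ c R t))) θ
        (mul_ne_zero hlam0 (Finset.prod_ne_zero_iff.2 fun i _ => hXne hG θ i))
      (Finset.prod_ne_zero_iff.2 fun l _ => hall θ l) (hprodX.const_mul _) hprodZ,
      logDeriv_const_mul (f := fun t => ∏ i, (circ c R t - (D.a i : ℂ))) θ _ hlam0,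
      logDeriv_prod (f := fun i t => circ c R t - (D.a i : ℂ)) (fun i _ => hXne hG θ i)
        (fun i _ => hdX i),
      logDeriv_prod (f := fun l t => Y t - D.b l (circ c R t)) (fun l _ => hall θ l)
        (fun l _ => hdZ l),
      ← Finset.add_sum_erase _ _ (Finset.mem_univ j)] at h2
    have h3 : logDeriv (fun t => Y t - D.b j (circ c R t)) θ =
        -((∑ i, logDeriv (fun t => circ c R t - (D.a i : ℂ)) θ) +
          ∑ l ∈ Finset.univ.erase j, logDeriv (fun t => Y t - D.b l (circ c R t)) θ) := by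
      linear_combination h2
    rw [h3, norm_neg]
    refine (norm_add_le _ _).trans ?_
    have b1 : ‖∑ i, logDeriv (fun t => circ c R t - (D.a i : ℂ)) θ‖ ≤ D.m := by
      refine (norm_sum_le_of_le _ (n := fun _ => (1 : ℝ)) ?_).trans ?_
      · intro i _
        rw [logDeriv_apply, ((hasDerivAt_circ c R θ).sub_const _).deriv, norm_div,
          norm_deriv_circ h0]
        exact (div_le_one (lt_of_lt_of_le h0 (hG.alo i θ))).2 (hG.alo i θ)
      · simp
    have b2 : ‖∑ l ∈ Finset.univ.erase j, logDeriv (fun t => Y t - D.b l (circ c R t)) θ‖ ≤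
        D.n * k1 M := by
      refine (norm_sum_le_of_le _ (n := fun _ => k1 M) ?_).trans hsumk
      intro l hl
      exact (bounds_ne hG hC hlam hY l (Finset.ne_of_mem_erase hl) θ).2.1
    have b3 : (0 : ℝ) ≤ D.m * Real.log M := by positivity
    unfold k2
    linarith
  · -- logarithm
    have h2 := congrArg (fun z : ℂ => Real.log ‖z‖) (hY.eqn θ)
    simp only [norm_mul, norm_one, Real.log_one, norm_prod] at h2
    rw [Real.log_mul, Real.log_mul, Real.log_prod, Real.log_prod,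
      ← Finset.add_sum_erase _ _ (Finset.mem_univ j)] at h2
    rotate_left
    · intro l _; exact norm_ne_zero_iff.2 (hall θ l)
    · intro i _; exact norm_ne_zero_iff.2 (hXne hG θ i)
    · exact norm_ne_zero_iff.2 hlam0
    · exact Finset.prod_ne_zero_iff.2 fun i _ => norm_ne_zero_iff.2 (hXne hG θ i)
    · exact mul_ne_zero (norm_ne_zero_iff.2 hlam0)
        (Finset.prod_ne_zero_iff.2 fun i _ => norm_ne_zero_iff.2 (hXne hG θ i))
    · exact Finset.prod_ne_zero_iff.2 fun l _ => norm_ne_zero_iff.2 (hall θ l)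
    have hcardeq : ((Finset.univ.erase j).card : ℝ) = D.n - 1 := by
      rw [Finset.card_erase_of_mem (Finset.mem_univ j), Finset.card_univ, Fintype.card_fin,
        Nat.cast_sub (by have := D.hn; omega), Nat.cast_one]
    have h3 : Real.log ‖Y θ - D.b j (circ c R θ)‖ - Real.log R + Real.log (lamR D lam R) =
        -((∑ i, (Real.log ‖circ c R θ - (D.a i : ℂ)‖ - Real.log R)) +
          ∑ l ∈ Finset.univ.erase j,
            (Real.log ‖Y θ - D.b l (circ c R θ)‖ - Real.log R)) := by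
      rw [Complex.norm_intCast] at h2
      unfold lamR
      rw [Real.log_mul hlamR (by positivity), Real.log_pow, Finset.sum_sub_distrib,
        Finset.sum_sub_distrib, Finset.sum_const, Finset.sum_const, nsmul_eq_mul, nsmul_eq_mul,
        hcardeq, Finset.card_univ, Fintype.card_fin]
      push_cast
      linear_combination h2
    rw [h3, abs_neg]
    refine (abs_add_le _ _).trans ?_
    have b1 : |∑ i, (Real.log ‖circ c R θ - (D.a i : ℂ)‖ - Real.log R)| ≤ D.m * Real.log M := by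
      refine (Finset.abs_sum_le_sum_abs _ _).trans ?_
      calc ∑ i, |Real.log ‖circ c R θ - (D.a i : ℂ)‖ - Real.log R|
          ≤ ∑ _i : Fin D.m, Real.log M := by
            apply Finset.sum_le_sum
            intro i _
            exact log_norm_bound h0 hM (hG.alo i θ) (hG.ahi i θ)
        _ = D.m * Real.log M := by simp
    have b2 : |∑ l ∈ Finset.univ.erase j,
        (Real.log ‖Y θ - D.b l (circ c R θ)‖ - Real.log R)| ≤ D.n * k1 M := by
      refine (Finset.abs_sum_le_sum_abs _ _).trans ((Finset.sum_le_sum ?_).trans hsumk)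
      intro l hl
      exact (bounds_ne hG hC hlam hY l (Finset.ne_of_mem_erase hl) θ).2.2
    have b3 : (0 : ℝ) ≤ D.m := Nat.cast_nonneg _
    unfold k2
    linarith

/-- the bounds for all lines -/
theorem bounds (hG : GC D j c R M) {C : ℝ} (hC : 0 < C) {lam : ℤ}
    (hlam : 2 * C ≤ lamR D lam R) {Y : ℝ → ℂ} (hY : ShU D lam j c R C Y) (l : Fin D.n) (θ : ℝ) :
    Y θ - D.b l (circ c R θ) ≠ 0 ∧
        ‖logDeriv (fun t => Y t - D.b l (circ c R t)) θ‖ ≤ k2 D.m D.n M ∧
        |Real.log ‖Y θ - D.b l (circ c R θ)‖ - Real.log R +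
          (if l = j then 1 else 0) * Real.log (lamR D lam R)| ≤ k2 D.m D.n M := by
  by_cases hl : l = j
  · subst hl
    simpa using bounds_eq hG hC hlam hY θ
  · obtain ⟨h1, h2, h3⟩ := bounds_ne hG hC hlam hY l hl θ
    have hM := hG.one
    have hk1 := k1_nonneg hM
    have hlogM := Real.log_nonneg hM
    have h4 : k1 M ≤ k2 D.m D.n M := by
      unfold k2
      have : 0 ≤ (D.m : ℝ) * (1 + Real.log M) := by positivity
      have : 0 ≤ (D.n : ℝ) * k1 M := by positivity
      linarith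
    refine ⟨h1, h2.trans h4, ?_⟩
    simp only [hl, if_false, zero_mul, add_zero]
    exact h3.trans h4

/-- the winding numbers -/
theorem integral_logDeriv_circ (h0 : 0 < R) (c s : ℤ) (h : ∀ θ, R ≤ ‖circ c R θ - (s : ℂ)‖) :
    ∫ θ in (0 : ℝ)..(2 * Real.pi), (logDeriv (fun t => circ c R t - (s : ℂ)) θ).im =
      2 * Real.pi * (if s = c then 1 else 0) := by
  have hne : ∀ θ, circ c R θ - (s : ℂ) ≠ 0 := fun θ => by
    rw [← norm_pos_iff]; exact lt_of_lt_of_le h0 (h θ)
  have hd : ∀ θ, logDeriv (fun t => circ c R t - (s : ℂ)) θ =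
      Complex.I * (circ c R θ - (c : ℂ)) / (circ c R θ - (s : ℂ)) := by
    intro θ
    rw [logDeriv_apply, ((hasDerivAt_circ c R θ).sub_const _).deriv]
  simp only [hd]
  by_cases hsc : s = c
  · subst hsc
    have : ∀ θ : ℝ, (Complex.I * (circ s R θ - (s : ℂ)) / (circ s R θ - (s : ℂ))).im = 1 := by
      intro θ
      rw [mul_div_assoc, div_self (hne θ), mul_one, Complex.I_im]
    simp only [this]
    simp
  · rw [if_neg hsc, mul_zero]
    have hfar := (far_of_le h0 h).resolve_left hsc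
    have hcs : ((c - s : ℤ) : ℂ) ≠ 0 := by
      have : c - s ≠ 0 := by omega
      exact_mod_cast this
    have hnorm : 2 * R ≤ ‖((c - s : ℤ) : ℂ)‖ := by
      rw [Complex.norm_intCast]; push_cast; exact hfar
    set F : ℝ → ℂ := fun θ => Complex.log (1 + (R : ℂ) * Complex.exp (θ * Complex.I) /
      ((c - s : ℤ) : ℂ)) with hF
    have hF1 : ∀ θ : ℝ, 1 + (R : ℂ) * Complex.exp (θ * Complex.I) / ((c - s : ℤ) : ℂ) =
        (circ c R θ - (s : ℂ)) / ((c - s : ℤ) : ℂ) := by
      intro θ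
      rw [eq_div_iff hcs, add_mul, div_mul_cancel₀ _ hcs]
      simp only [circ]; push_cast; ring
    have hslit : ∀ θ : ℝ, 1 + (R : ℂ) * Complex.exp (θ * Complex.I) / ((c - s : ℤ) : ℂ) ∈
        Complex.slitPlane := by
      intro θ
      apply Complex.mem_slitPlane_of_norm_lt_one
      rw [norm_div, norm_exp_mul θ h0.le]
      rw [div_lt_one (by linarith)]
      linarith
    have hFd : ∀ θ : ℝ, HasDerivAt F (Complex.I * (circ c R θ - (c : ℂ)) /
        (circ c R θ - (s : ℂ))) θ := by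
      intro θ
      have h2 : HasDerivAt (fun t : ℝ => (circ c R t - (s : ℂ)) / ((c - s : ℤ) : ℂ))
          (Complex.I * (circ c R θ - (c : ℂ)) / ((c - s : ℤ) : ℂ)) θ :=
        ((hasDerivAt_circ c R θ).sub_const _).div_const _
      have h3 : (fun t : ℝ => (circ c R t - (s : ℂ)) / ((c - s : ℤ) : ℂ)) =
          fun t : ℝ => 1 + (R : ℂ) * Complex.exp (t * Complex.I) / ((c - s : ℤ) : ℂ) := by
        funext t; rw [hF1]
      rw [h3] at h2
      have h4 := h2.clog_real (hslit θ)
      have h5 : Complex.I * (circ c R θ - (c : ℂ)) / ((c - s : ℤ) : ℂ) /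
          (1 + (R : ℂ) * Complex.exp (θ * Complex.I) / ((c - s : ℤ) : ℂ)) =
          Complex.I * (circ c R θ - (c : ℂ)) / (circ c R θ - (s : ℂ)) := by
        rw [hF1, div_div_div_cancel_right₀ hcs]
      rw [h5] at h4
      exact h4
    have hcont : Continuous fun θ : ℝ => Complex.I * (circ c R θ - (c : ℂ)) /
        (circ c R θ - (s : ℂ)) := by
      have hcc : Continuous (circ c R) := (contDiff_circ c R (n := 1)).continuous
      exact (continuous_const.mul (hcc.sub continuous_const)).div (hcc.sub continuous_const)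
        (fun θ => hne θ)
    have h6 : ∫ θ in (0 : ℝ)..(2 * Real.pi), Complex.I * (circ c R θ - (c : ℂ)) /
        (circ c R θ - (s : ℂ)) = 0 := by
      rw [intervalIntegral.integral_eq_sub_of_hasDerivAt (fun θ _ => hFd θ)
        (hcont.intervalIntegrable _ _)]
      have h7 : F (2 * Real.pi) = F 0 := by
        simp only [hF]
        congr 3
        push_cast
        rw [Complex.exp_two_pi_mul_I]
        simp
      rw [h7, sub_self]
    have h8 := (Complex.imCLM).intervalIntegral_comp_comm (hcont.intervalIntegrable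
      (μ := MeasureTheory.volume) 0 (2 * Real.pi))
    rw [h6] at h8
    simpa using h8

theorem norm_logDeriv_circ (h0 : 0 < R) (c s : ℤ) (θ : ℝ) (h : R ≤ ‖circ c R θ - (s : ℂ)‖) :
    |(logDeriv (fun t => circ c R t - (s : ℂ)) θ).im| ≤ 1 := by
  refine (Complex.abs_im_le_norm _).trans ?_
  rw [logDeriv_apply, ((hasDerivAt_circ c R θ).sub_const _).deriv, norm_div,
    norm_deriv_circ h0]
  exact (div_le_one (lt_of_lt_of_le h0 h)).2 h

end MP743d1e.U.ASUM

namespace MP743d1e.U

open ASUM MP743d1e.Circ MP743d1e.Asym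

/-- ASU -/
theorem specASU : SpecASU := by
  intro m n M C hC
  refine ⟨((Real.log M + Real.log M) * (k2 m n M + k2 m n M) + (k2 m n M + k2 m n M) * 2) *
    |2 * Real.pi - 0|, 2 * C, by positivity, ?_⟩
  rintro D rfl rfl j c R hG s i0 l l' hs lam hlam Y hY
  have h0 := hG.pos
  have hM := hG.one
  set K : ℝ := k2 D.m D.n M with hKdef
  set e : ℝ := (if l = j then 1 else 0) with he
  set e' : ℝ := (if l' = j then 1 else 0) with he'
  set Λ : ℝ := Real.log (lamR D lam R) with hΛ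
  set P : ℝ → ℂ := fun t => circ c R t - (s : ℂ) with hP
  set Q : ℝ → ℂ := fun t => circ c R t - (D.a i0 : ℂ) with hQ
  set Z : ℝ → ℂ := fun t => Y t - D.b l (circ c R t) with hZ
  set Z' : ℝ → ℂ := fun t => Y t - D.b l' (circ c R t) with hZ'
  have hPc : ContDiff ℝ 1 P := (contDiff_circ c R).sub contDiff_const
  have hQc : ContDiff ℝ 1 Q := (contDiff_circ c R).sub contDiff_const
  have hZc : ContDiff ℝ 1 Z := hY.smooth.sub (contDiff_b D c R l)
  have hZc' : ContDiff ℝ 1 Z' := hY.smooth.sub (contDiff_b D c R l')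
  have hPn : ∀ θ, P θ ≠ 0 := fun θ => by
    rw [← norm_pos_iff]; exact lt_of_lt_of_le h0 (hs θ).1
  have hQn : ∀ θ, Q θ ≠ 0 := fun θ => hXne hG θ i0
  have hB := bounds hG hC hlam hY l
  have hB' := bounds hG hC hlam hY l'
  have hZn : ∀ θ, Z θ ≠ 0 := fun θ => (hB θ).1
  have hZn' : ∀ θ, Z' θ ≠ 0 := fun θ => (hB' θ).1
  -- the integrand
  have hI : ∀ θ, Real.log ‖P θ / Q θ‖ * (deriv (fun t => Z t / Z' t) θ / (Z θ / Z' θ)).im -
      Real.log ‖Z θ / Z' θ‖ * (deriv (fun t => P t / Q t) θ / (P θ / Q θ)).im =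
      (Real.log ‖P θ‖ - Real.log ‖Q θ‖) * ((logDeriv Z θ).im - (logDeriv Z' θ).im) -
      (Real.log ‖Z θ‖ - Real.log ‖Z' θ‖) * ((logDeriv P θ).im - (logDeriv Q θ).im) := by
    intro θ
    have e1 : deriv (fun t => Z t / Z' t) θ / (Z θ / Z' θ) = logDeriv Z θ - logDeriv Z' θ :=
      logDeriv_div θ (hZn θ) (hZn' θ) ((hZc.differentiable (by norm_num)) θ)
        ((hZc'.differentiable (by norm_num)) θ)
    have e2 : deriv (fun t => P t / Q t) θ / (P θ / Q θ) = logDeriv P θ - logDeriv Q θ :=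
      logDeriv_div θ (hPn θ) (hQn θ) ((hPc.differentiable (by norm_num)) θ)
        ((hQc.differentiable (by norm_num)) θ)
    rw [e1, e2, norm_div, norm_div, Real.log_div (norm_ne_zero_iff.2 (hPn θ))
      (norm_ne_zero_iff.2 (hQn θ)), Real.log_div (norm_ne_zero_iff.2 (hZn θ))
      (norm_ne_zero_iff.2 (hZn' θ)), Complex.sub_im, Complex.sub_im]
  set I : ℝ → ℝ := fun θ => (Real.log ‖P θ‖ - Real.log ‖Q θ‖) *
      ((logDeriv Z θ).im - (logDeriv Z' θ).im) -
      (Real.log ‖Z θ‖ - Real.log ‖Z' θ‖) * ((logDeriv P θ).im - (logDeriv Q θ).im) with hIdef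
  have hreg : regInt (fun θ => (circ c R θ - (s : ℂ)) / (circ c R θ - (D.a i0 : ℂ)))
            (fun θ => (Y θ - D.b l (circ c R θ)) / (Y θ - D.b l' (circ c R θ))) =
      ∫ θ in (0 : ℝ)..(2 * Real.pi), I θ := by
    unfold regInt
    apply intervalIntegral.integral_congr
    intro θ _
    exact hI θ
  have cP := continuous_logDeriv hPc hPn
  have cQ := continuous_logDeriv hQc hQn
  have hIc : Continuous I :=
    (((continuous_log_norm hPc hPn).sub (continuous_log_norm hQc hQn)).mul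
      ((continuous_logDeriv hZc hZn).sub (continuous_logDeriv hZc' hZn'))).sub
    (((continuous_log_norm hZc hZn).sub (continuous_log_norm hZc' hZn')).mul (cP.sub cQ))
  set MM : ℝ → ℝ := fun θ => (Λ * (e - e')) * ((logDeriv P θ).im - (logDeriv Q θ).im) with hMM
  have hMc : Continuous MM := continuous_const.mul (cP.sub cQ)
  have hMint : ∫ θ in (0 : ℝ)..(2 * Real.pi), MM θ = 2 * Real.pi * Λ * (e - e') *
      ((if s = c then 1 else 0) - (if D.a i0 = c then 1 else 0)) := by
    simp only [hMM]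
    rw [intervalIntegral.integral_const_mul, intervalIntegral.integral_sub
      (cP.intervalIntegrable _ _) (cQ.intervalIntegrable _ _),
      integral_logDeriv_circ h0 c s (fun θ => (hs θ).1),
      integral_logDeriv_circ h0 c (D.a i0) (fun θ => hG.alo i0 θ)]
    ring
  rw [hreg, ← hMint, ← intervalIntegral.integral_sub (hIc.intervalIntegrable _ _)
    (hMc.intervalIntegrable _ _), ← Real.norm_eq_abs]
  apply intervalIntegral.norm_integral_le_of_norm_le_const
  intro θ _
  have b1 : |Real.log ‖P θ‖ - Real.log R| ≤ Real.log M :=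
    log_norm_bound h0 hM (hs θ).1 (hs θ).2
  have b2 : |Real.log ‖Q θ‖ - Real.log R| ≤ Real.log M :=
    log_norm_bound h0 hM (hG.alo i0 θ) (hG.ahi i0 θ)
  have b3 : |(logDeriv Z θ).im| ≤ K := (Complex.abs_im_le_norm _).trans (hB θ).2.1
  have b4 : |(logDeriv Z' θ).im| ≤ K := (Complex.abs_im_le_norm _).trans (hB' θ).2.1
  have b5 : |Real.log ‖Z θ‖ - Real.log R + e * Λ| ≤ K := (hB θ).2.2
  have b6 : |Real.log ‖Z' θ‖ - Real.log R + e' * Λ| ≤ K := (hB' θ).2.2
  have b7 : |(logDeriv P θ).im| ≤ 1 := norm_logDeriv_circ h0 c s θ (hs θ).1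
  have b8 : |(logDeriv Q θ).im| ≤ 1 := norm_logDeriv_circ h0 c _ θ (hG.alo i0 θ)
  have hIM : I θ - MM θ = ((Real.log ‖P θ‖ - Real.log R) - (Real.log ‖Q θ‖ - Real.log R)) *
      ((logDeriv Z θ).im - (logDeriv Z' θ).im) -
      ((Real.log ‖Z θ‖ - Real.log R + e * Λ) - (Real.log ‖Z' θ‖ - Real.log R + e' * Λ)) *
        ((logDeriv P θ).im - (logDeriv Q θ).im) := by
    simp only [hIdef, hMM]; ring
  rw [hIM, Real.norm_eq_abs]
  refine (abs_sub _ _).trans ?_
  rw [abs_mul, abs_mul]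
  have c1 : |(Real.log ‖P θ‖ - Real.log R) - (Real.log ‖Q θ‖ - Real.log R)| ≤
      Real.log M + Real.log M := (abs_sub _ _).trans (add_le_add b1 b2)
  have c2 : |(logDeriv Z θ).im - (logDeriv Z' θ).im| ≤ K + K :=
    (abs_sub _ _).trans (add_le_add b3 b4)
  have c3 : |(Real.log ‖Z θ‖ - Real.log R + e * Λ) - (Real.log ‖Z' θ‖ - Real.log R + e' * Λ)| ≤
      K + K := (abs_sub _ _).trans (add_le_add b5 b6)
  have c4 : |(logDeriv P θ).im - (logDeriv Q θ).im| ≤ 2 := by
    refine (abs_sub _ _).trans ?_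
    linarith
  have d1 := abs_nonneg ((Real.log ‖P θ‖ - Real.log R) - (Real.log ‖Q θ‖ - Real.log R))
  have d2 := abs_nonneg ((logDeriv Z θ).im - (logDeriv Z' θ).im)
  have d3 := abs_nonneg ((Real.log ‖Z θ‖ - Real.log R + e * Λ) -
    (Real.log ‖Z' θ‖ - Real.log R + e' * Λ))
  have d4 := abs_nonneg ((logDeriv P θ).im - (logDeriv Q θ).im)
  exact add_le_add (mul_le_mul c1 c2 d2 (d1.trans c1)) (mul_le_mul c3 c4 d4 (d3.trans c3))

end MP743d1e.U
end
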