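import Pool.Agent.Lib.MP_743d1e_nt.Statement

/-!
# Named parts of the statement for almost all arrangements
-/

set_option autoImplicit false

namespace MP743d1e.U

open scoped BigOperators

/-- The pairs `(a, q)` of integral vectors with all entries in `[-H, H]`. -/
noncomputable def box (m n H : ℕ) : Finset ((Fin m → ℤ) × (Fin n → ℤ)) :=
  Fintype.piFinset (fun _ => Finset.Icc (-(H : ℤ)) H) ×ˢ
    Fintype.piFinset (fun _ => Finset.Icc (-(H : ℤ)) H)

/-- Any two non-parallel lines among the `y = p j * x + q j` meet at a point with integral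
abscissa. -/
def IntCross {n : ℕ} (p q : Fin n → ℤ) : Prop := ∀ j l, p j ≠ p l → (p j - p l) ∣ (q l - q j)

open Classical in
/-- The pairs `(a, q)` in the box of size `H` for which the lines `y = p j * x + q j` have integral
crossings. -/
noncomputable def family (m n : ℕ) (p : Fin n → ℤ) (H : ℕ) :
    Finset ((Fin m → ℤ) × (Fin n → ℤ)) :=
  (box m n H).filter (fun z => IntCross p z.2)

/-- The data of an arrangement. -/
def _root_.MP743d1e.Arr.data (D : Arr) : Σ m n : ℕ, (Fin m → ℤ) × (Fin n → ℤ) × (Fin n → ℤ) :=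
  ⟨D.m, D.n, D.a, D.p, D.q⟩

/-- The conclusion for the curve `lam * ∏ (x - a i) * ∏ (y - p j * x - q j) = 1`: it exists over
`ℚ` and over `ℂ`, `ℚ` is algebraically closed in the function field over `ℚ`, the genus is `D.g`
and, if no class of parallel lines has more than `m` members, the gonality is `n`; there are `D.g`
unramified elements of `symU` which up to torsion span all unramified elements of `symU`, and
`D.g` loops, such that the regulator matrix is `τ` times the identity up to an error at most
`C` in each entry and has nonzero determinant. -/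
def Concl (D : Arr) (lam : ℤ) (τ C : ℝ) : Prop :=
  (∃ (K : Type) (_ : Field K) (_ : Algebra ℚ K) (x y : K), IsCurve ℚ K D lam x y) ∧
  (∃ (K : Type) (_ : Field K) (_ : Algebra ℂ K) (x y : K), IsCurve ℂ K D lam x y) ∧
  (∀ (K : Type) [Field K] [Algebra ℚ K] (x y : K), IsCurve ℚ K D lam x y →
    ConstQ K ∧ ∃ (α : Fin D.g → K2 K) (γ : Fin D.g → Loop K), SpansUnramified D x y α ∧
      RegMatrix α γ τ C) ∧
  (∀ (K : Type) [Field K] [Algebra ℂ K] (x y : K), IsCurve ℂ K D lam x y →
    HasGenus K D.g ∧ ((∀ j, D.par j ≤ D.m) → HasGonality K x D.n))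

/-- The pair `z = (a, q)` defines together with the slopes `p` an arrangement for which the
conclusion holds for all integers `lam ≠ 0`. -/
def Good {m n : ℕ} (p : Fin n → ℤ) (H : ℕ) (C : ℝ) (z : (Fin m → ℤ) × (Fin n → ℤ)) : Prop :=
  ∃ D : Arr, D.data = ⟨m, n, z.1, p, z.2⟩ ∧ ∀ lam : ℤ, lam ≠ 0 →
    Concl D lam (2 * Real.pi * Real.log (|(lam : ℝ)| * H ^ (m + n))) C

end MP743d1e.U
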