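import Pool.Agent.Lib.MP_743d1e_nt.Kae

/-!
# Uniform estimates for arrangements (block U): definitions

`Sep D H δ`: the coefficients of `D` are bounded by `H`, and its lines are separated by `δ * H`.
`GC D j c R M`: on the circle of radius `R` around `c` all differences between the vertical lines and
the circle, and between the `j`-th line and the other ones, have absolute value between `R` and
`M * R`.
-/

set_option autoImplicit false

namespace MP743d1e.U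

open scoped BigOperators

/-- the data of `D` lie in the box of size `H` and are separated by `δ * H` -/
structure Sep (D : Arr) (H δ : ℝ) : Prop where
  a_le : ∀ i, |(D.a i : ℝ)| ≤ H
  q_le : ∀ j, |(D.q j : ℝ)| ≤ H
  aa : ∀ i k, i ≠ k → δ * H ≤ |(D.a i : ℝ) - D.a k|
  ra : ∀ j l i, D.p j ≠ D.p l → δ * H ≤ |(D.r j l : ℝ) - D.a i|
  rr : ∀ j l j' l', D.p j ≠ D.p l → D.p j' ≠ D.p l' → D.r j l ≠ D.r j' l' →
    δ * H ≤ |(D.r j l : ℝ) - D.r j' l'|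
  qq : ∀ j l, j ≠ l → D.p j = D.p l → δ * H ≤ |(D.q j : ℝ) - D.q l|

/-- the circle of radius `R` around `c` is far from all lines -/
structure GC (D : Arr) (j : Fin D.n) (c : ℤ) (R M : ℝ) : Prop where
  pos : 0 < R
  one : 1 ≤ M
  alo : ∀ i θ, R ≤ ‖circ c R θ - (D.a i : ℂ)‖
  ahi : ∀ i θ, ‖circ c R θ - (D.a i : ℂ)‖ ≤ M * R
  blo : ∀ l, l ≠ j → ∀ θ, R ≤ ‖D.b j (circ c R θ) - D.b l (circ c R θ)‖
  bhi : ∀ l, l ≠ j → ∀ θ, ‖D.b j (circ c R θ) - D.b l (circ c R θ)‖ ≤ M * R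
  p_le : ∀ l, ‖(D.p l : ℂ)‖ ≤ M

/-- the scaled parameter -/
noncomputable def lamR (D : Arr) (lam : ℤ) (R : ℝ) : ℝ := |(lam : ℝ)| * R ^ (D.m + D.n)

/-- the branch close to the `j`-th line, with scaled estimates -/
structure ShU (D : Arr) (lam : ℤ) (j : Fin D.n) (c : ℤ) (R C : ℝ) (Y : ℝ → ℂ) : Prop where
  smooth : ContDiff ℝ 1 Y
  periodic : ∀ θ, Y (θ + 2 * Real.pi) = Y θ
  eqn : ∀ θ, (lam : ℂ) * (∏ i, (circ c R θ - (D.a i : ℂ))) *
    (∏ l, (Y θ - D.b l (circ c R θ))) = 1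
  near : ∀ θ, ‖Y θ - D.b j (circ c R θ)‖ ≤ C * R / lamR D lam R
  near' : ∀ θ, ‖deriv (fun t => Y t - D.b j (circ c R t)) θ‖ ≤ C * R / lamR D lam R

/-- SHU. Uniform existence of the branches. -/
def SpecSHU : Prop :=
  ∀ (m n : ℕ) (M : ℝ), ∃ C L : ℝ, 0 < L ∧ 0 < C ∧ ∀ D : Arr, D.m = m → D.n = n →
    ∀ (j : Fin D.n) (c : ℤ) (R : ℝ), GC D j c R M → ∀ lam : ℤ, L ≤ lamR D lam R →
      ∃ Y : ℝ → ℂ, ShU D lam j c R C Y

/-- ASU. Uniform asymptotics of the regulator integrals. -/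
def SpecASU : Prop :=
  ∀ (m n : ℕ) (M C : ℝ), 0 < C → ∃ C' L : ℝ, 0 < L ∧ ∀ D : Arr, D.m = m → D.n = n →
    ∀ (j : Fin D.n) (c : ℤ) (R : ℝ), GC D j c R M → ∀ (s : ℤ) (i0 : Fin D.m) (l l' : Fin D.n),
      (∀ θ, R ≤ ‖circ c R θ - (s : ℂ)‖ ∧ ‖circ c R θ - (s : ℂ)‖ ≤ M * R) →
      ∀ lam : ℤ, L ≤ lamR D lam R → ∀ Y : ℝ → ℂ, ShU D lam j c R C Y →
        |regInt (fun θ => (circ c R θ - (s : ℂ)) / (circ c R θ - (D.a i0 : ℂ)))
            (fun θ => (Y θ - D.b l (circ c R θ)) / (Y θ - D.b l' (circ c R θ)))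
          - 2 * Real.pi * Real.log (lamR D lam R) *
            ((if l = j then 1 else 0) - (if l' = j then 1 else 0)) *
            ((if s = c then 1 else 0) - (if D.a i0 = c then 1 else 0))| ≤ C'

end MP743d1e.U
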